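import Pool.Agent.Helper85.QT.St3

/-!
# Project QT, TRA: transport by an element of the group
-/

set_option autoImplicit false

open MeasureTheory Matrix Set Topology
open scoped ENNReal ComplexConjugate

namespace Pool.Agent.Helper93.QT

open Pool.Agent.Helper85.QT Pool.Agent.Helper86.QA

private lemma mb_deriv (g : SL) (ξ : ℂ) (h : g 1 0 * ξ + g 1 1 ≠ 0) :
    HasDerivAt (mb g) (1 / (g 1 0 * ξ + g 1 1) ^ 2) ξ := by
  have hd : g 0 0 * g 1 1 - g 0 1 * g 1 0 = 1 := by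
    have := g.det_coe
    rw [Matrix.det_fin_two] at this
    exact this
  have h1 : HasDerivAt (fun ξ : ℂ => g 0 0 * ξ + g 0 1) (g 0 0) ξ := by
    simpa using ((hasDerivAt_id ξ).const_mul (g 0 0)).add_const (g 0 1)
  have h2 : HasDerivAt (fun ξ : ℂ => g 1 0 * ξ + g 1 1) (g 1 0) ξ := by
    simpa using ((hasDerivAt_id ξ).const_mul (g 1 0)).add_const (g 1 1)
  have h3 := h1.div h2 h
  have h4 : (g 0 0 * (g 1 0 * ξ + g 1 1) - (g 0 0 * ξ + g 0 1) * g 1 0) /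
      (g 1 0 * ξ + g 1 1) ^ 2 = 1 / (g 1 0 * ξ + g 1 1) ^ 2 := by
    congr 1
    linear_combination hd
  rw [h4] at h3
  exact h3

private lemma det2 (w : ℂ) :
    ((ContinuousLinearMap.toSpanSingleton ℂ w).restrictScalars ℝ : ℂ →L[ℝ] ℂ).det = ‖w‖ ^ 2 := by
  simp [ContinuousLinearMap.det, LinearMap.det_restrictScalars,
      Algebra.norm_complex_eq, Complex.normSq_eq_norm_sq]

private lemma det3 (w : ℂ) :
    |((ContinuousLinearMap.toSpanSingleton ℂ (1 / w ^ 2)).restrictScalars ℝ : ℂ →L[ℝ] ℂ).det| =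
      (‖w‖ ^ 4)⁻¹ := by
  rw [det2, norm_div, norm_one, norm_pow, abs_of_nonneg (by positivity), div_pow, one_pow,
    ← pow_mul, one_div]

private lemma frac_aux (x y p q : ℂ) (hp : p ≠ 0) (hq : q ≠ 0) :
    (x / p) / (y / (q * p)) = q * (x / y) := by
  by_cases hy : y = 0
  · simp [hy]
  · field_simp

/-- **TRA** -/
theorem hTRA (hCHV : Pool.Agent.Helper86.QA.StCHV) (hHME : Pool.Agent.Helper86.QA.StHME) :
    Pool.Agent.Helper85.QT.StTRA := by
  intro Γ _ ρ A B hK g V hVA hV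
  obtain ⟨-, hcomp, hdiff, hone, hmeas⟩ := hCHV
  have e1 : ρ g⁻¹ * ρ g = 1 := by rw [← map_mul, inv_mul_cancel, map_one]
  have e2 : ρ g * ρ g⁻¹ = 1 := by rw [← map_mul, mul_inv_cancel, map_one]
  have back : ∀ ξ, (ρ g) 1 0 * ξ + (ρ g) 1 1 ≠ 0 → mb (ρ g⁻¹) (mb (ρ g) ξ) = ξ := by
    intro ξ hξ
    rw [← (hcomp (ρ g⁻¹) (ρ g) ξ hξ).1, e1, hone]
  have forth : ∀ ξ, (ρ g⁻¹) 1 0 * ξ + (ρ g⁻¹) 1 1 ≠ 0 → mb (ρ g) (mb (ρ g⁻¹) ξ) = ξ := by
    intro ξ hξ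
    rw [← (hcomp (ρ g) (ρ g⁻¹) ξ hξ).1, e2, hone]
  have himg : mb (ρ g) '' V = A ∩ (mb (ρ g⁻¹)) ⁻¹' V := by
    ext ξ
    constructor
    · rintro ⟨v, hv, rfl⟩
      have h1 := hK.mpA g v (hVA hv)
      exact ⟨h1.2, by rw [mem_preimage, back v h1.1]; exact hv⟩
    · rintro ⟨h1, h2⟩
      exact ⟨mb (ρ g⁻¹) ξ, h2, forth ξ (hK.mpA g⁻¹ ξ h1).1⟩
  have hVm : MeasurableSet (mb (ρ g) '' V) := by
    rw [himg]
    exact hK.opA.measurableSet.inter (hmeas _ hV)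
  have hinj : InjOn (mb (ρ g)) V := by
    intro x hx y hy hxy
    rw [← back x (hK.mpA g x (hVA hx)).1, ← back y (hK.mpA g y (hVA hy)).1, hxy]
  have hder : ∀ x ∈ V, HasFDerivWithinAt (mb (ρ g))
      ((ContinuousLinearMap.toSpanSingleton ℂ (1 / ((ρ g) 1 0 * x + (ρ g) 1 1) ^ 2)).restrictScalars
        ℝ : ℂ →L[ℝ] ℂ) V x := fun x hx =>
    ((mb_deriv (ρ g) x (hK.mpA g x (hVA hx)).1).hasFDerivAt.restrictScalars ℝ).hasFDerivWithinAt
  refine ⟨⟨hVm, by rw [himg]; exact inter_subset_left⟩, fun x hx => ?_, fun a b _ ha hb => ?_⟩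
  · obtain ⟨-, -, -, -, -, -, -, h8⟩ := hHME
    refine (h8 (mb (ρ g) '' V) V (ρ g⁻¹) x hVm hV hx fun ξ hξ => ?_).symm
    constructor
    · intro h1
      rw [himg] at h1
      exact h1.2
    · intro h1
      exact ⟨mb (ρ g⁻¹) ξ, h1, forth ξ hξ⟩
  · -- the kernel
    set a' := mb (ρ g⁻¹) a with ha'
    set b' := mb (ρ g⁻¹) b with hb'
    have hfa : mb (ρ g) a' = a := forth a ha
    have hfb : mb (ρ g) b' = b := forth b hb
    have h10 : (1 : SL) 1 0 = (0 : ℂ) := by simp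
    have h11 : (1 : SL) 1 1 = (1 : ℂ) := by simp
    have hda : (ρ g) 1 0 * a' + (ρ g) 1 1 ≠ 0 := by
      have h1 := (hcomp (ρ g) (ρ g⁻¹) a ha).2
      rw [e2, h10, h11, zero_mul, zero_add] at h1
      intro h2
      rw [← ha', h2, zero_mul] at h1
      exact one_ne_zero h1
    have hdb : (ρ g) 1 0 * b' + (ρ g) 1 1 ≠ 0 := by
      have h1 := (hcomp (ρ g) (ρ g⁻¹) b hb).2
      rw [e2, h10, h11, zero_mul, zero_add] at h1
      intro h2
      rw [← hb', h2, zero_mul] at h1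
      exact one_ne_zero h1
    have hth : ∀ ζ, (ρ g) 1 0 * ζ + (ρ g) 1 1 ≠ 0 →
        th a b (mb (ρ g) ζ) = ((ρ g) 1 0 * ζ + (ρ g) 1 1) ^ 4 * th a' b' ζ := by
      intro ζ hζ
      have k1 : mb (ρ g) ζ - a = (ζ - a') /
          (((ρ g) 1 0 * ζ + (ρ g) 1 1) * ((ρ g) 1 0 * a' + (ρ g) 1 1)) := by
        have := hdiff (ρ g) ζ a' hζ hda
        rwa [hfa] at this
      have k2 : mb (ρ g) ζ - b = (ζ - b') /
          (((ρ g) 1 0 * ζ + (ρ g) 1 1) * ((ρ g) 1 0 * b' + (ρ g) 1 1)) := by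
        have := hdiff (ρ g) ζ b' hζ hdb
        rwa [hfb] at this
      have k3 : a - b = (a' - b') /
          (((ρ g) 1 0 * a' + (ρ g) 1 1) * ((ρ g) 1 0 * b' + (ρ g) 1 1)) := by
        have := hdiff (ρ g) a' b' hda hdb
        rwa [hfa, hfb] at this
      unfold th
      rw [k1, k2, k3]
      set D := (ρ g) 1 0 * ζ + (ρ g) 1 1 with hD
      set P := (ρ g) 1 0 * a' + (ρ g) 1 1 with hP
      set Q := (ρ g) 1 0 * b' + (ρ g) 1 1 with hQ
      have m1 : ((a' - b') / (P * Q)) ^ 2 = (a' - b') ^ 2 / (P * Q) ^ 2 := div_pow _ _ _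
      have m2 : ((ζ - a') / (D * P)) ^ 2 * ((ζ - b') / (D * Q)) ^ 2 =
          ((ζ - a') ^ 2 * (ζ - b') ^ 2) / (D ^ 4 * (P * Q) ^ 2) := by
        rw [div_pow, div_pow, div_mul_div_comm]
        congr 1
        ring
      rw [m1, m2]
      exact frac_aux _ _ _ _ (pow_ne_zero 2 (mul_ne_zero hda hdb)) (pow_ne_zero 4 hζ)
    constructor
    · rw [lintegral_image_eq_lintegral_abs_det_fderiv_mul volume hV hder hinj]
      refine setLIntegral_congr_fun hV fun ζ hζ => ?_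
      have hd := (hK.mpA g ζ (hVA hζ)).1
      show ENNReal.ofReal |_| * ENNReal.ofReal ‖th a b (mb (ρ g) ζ)‖ = ENNReal.ofReal ‖th a' b' ζ‖
      rw [det3, hth ζ hd, ← ENNReal.ofReal_mul (by positivity), norm_mul, norm_pow, ← mul_assoc,
        inv_mul_cancel₀ (pow_ne_zero 4 (norm_ne_zero_iff.2 hd)), one_mul]
    · intro lam G φ m μ0 μ hμ
      rw [integral_image_eq_integral_abs_det_fderiv_smul volume hV hder hinj]
      refine setIntegral_congr_fun hV fun ζ hζ => ?_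
      have hd := (hK.mpA g ζ (hVA hζ)).1
      show |_| • (μ (mb (ρ g) ζ) * th a b (mb (ρ g) ζ)) = μ ζ * th a' b' ζ
      rw [det3, hth ζ hd]
      have hinv := hμ.inv g ζ (hVA hζ)
      set D := (ρ g) 1 0 * ζ + (ρ g) 1 1 with hD
      have hc : conj (D ^ 2) ≠ 0 := by
        rw [Ne, map_eq_zero]
        exact pow_ne_zero 2 hd
      have hP : D ^ 2 ≠ 0 := pow_ne_zero 2 hd
      have k1 : μ (mb (ρ g) ζ) = μ ζ * (D ^ 2)⁻¹ * conj (D ^ 2) := by
        rw [map_inv₀] at hinv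
        rw [← hinv, mul_assoc, inv_mul_cancel₀ hc, mul_one]
      have k2 : (((‖D‖ ^ 4)⁻¹ : ℝ) : ℂ) = (D ^ 2 * conj (D ^ 2))⁻¹ := by
        rw [Complex.mul_conj, Complex.normSq_eq_norm_sq, norm_pow]
        push_cast
        congr 1
        ring
      rw [Complex.real_smul, k2, k1]
      field_simp

end Pool.Agent.Helper93.QT
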